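import Mathlib
import Pool.Agent.R101.Dist

/-!
# MP_cecf76_co: large pairwise-intersecting subfamilies of dense set systems

For all `0 < ε < c ≤ 1/2` the function `f(n,m,c,ε)` lies between two powers of `m` with exponents
strictly below one, and the exponent of the lower bound tends to `1` as `ε → 0`; for `ε ≤ c ^ 3` it
is at least `1/2`.
-/

set_option autoImplicit false

open Finset
open scoped symmDiff

namespace Pool.Agent.Results.MP_cecf76_co.PowerLaw

/-- The index set `I` is `ε`-intersecting for the sequence `A_1, …, A_m` of subsets of an `n`-set: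
`|A_i ∩ A_j| > ε n` for all distinct `i, j ∈ I`. -/
def EpsIntersecting {n m : ℕ} (ε : ℝ) (A : Fin m → Finset (Fin n)) (I : Finset (Fin m)) : Prop :=
  ∀ i ∈ I, ∀ j ∈ I, i ≠ j → ε * n < #(A i ∩ A j)

/-- `f(n,m,c,ε)`: the largest `k` such that every sequence `A_1, …, A_m` of subsets of an `n`-set
with `|A_i| > c n` for all `i` has an `ε`-intersecting index set of size `k`. -/
noncomputable def f (n m : ℕ) (c ε : ℝ) : ℕ :=
  sSup {k : ℕ | ∀ A : Fin m → Finset (Fin n), (∀ i, c * n < #(A i)) →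
    ∃ I : Finset (Fin m), #I = k ∧ EpsIntersecting ε A I}

/-! ### The lower bound: dependent random choice -/

lemma two_mul_card_lt (m : ℕ) :
    2 * #((univ : Finset (Fin m × Fin m)).filter (fun p => p.1 < p.2)) ≤ m ^ 2 := by
  have h1 : #((univ : Finset (Fin m × Fin m)).filter (fun p => p.1 < p.2)) =
      #((univ : Finset (Fin m × Fin m)).filter (fun p => p.2 < p.1)) := by
    apply card_bij (fun p _ => p.swap)
    · intro p hp
      rw [mem_filter] at hp ⊢
      exact ⟨mem_univ _, hp.2⟩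
    · intro p _ q _ h
      exact Prod.swap_injective h
    · intro p hp
      rw [mem_filter] at hp
      exact ⟨p.swap, mem_filter.2 ⟨mem_univ _, hp.2⟩, Prod.swap_swap p⟩
  have h2 : Disjoint ((univ : Finset (Fin m × Fin m)).filter (fun p => p.1 < p.2))
      ((univ : Finset (Fin m × Fin m)).filter (fun p => p.2 < p.1)) := by
    rw [disjoint_left]
    intro p hp hp'
    rw [mem_filter] at hp hp'
    exact lt_asymm hp.2 hp'.2
  have h3 := card_union_of_disjoint h2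
  have h4 : #(((univ : Finset (Fin m × Fin m)).filter (fun p => p.1 < p.2)) ∪
      ((univ : Finset (Fin m × Fin m)).filter (fun p => p.2 < p.1))) ≤ m ^ 2 := by
    refine (card_le_univ _).trans ?_
    rw [Fintype.card_prod, Fintype.card_fin, sq]
  omega

/-- choosing `r` random points of the ground set -/
lemma random_choice {n m : ℕ} (hn : 1 ≤ n) (c ε : ℝ) (hc : 0 ≤ c) (hε : 0 ≤ ε) (r : ℕ)
    (A : Fin m → Finset (Fin n)) (hA : ∀ i, c * n < #(A i)) :
    ∃ I : Finset (Fin m), (m : ℝ) * c ^ r - (m : ℝ) ^ 2 / 2 * ε ^ r ≤ #I ∧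
      EpsIntersecting ε A I := by
  classical
  set Bd := (univ : Finset (Fin m × Fin m)).filter
    (fun p => p.1 < p.2 ∧ ¬ (ε * n < #(A p.1 ∩ A p.2))) with hBd
  let X : (Fin r → Fin n) → Finset (Fin m) := fun ω => univ.filter (fun k => ∀ l, ω l ∈ A k)
  let Y : (Fin r → Fin n) → Finset (Fin m × Fin m) :=
    fun ω => Bd.filter (fun p => ∀ l, ω l ∈ A p.1 ∩ A p.2)
  have hcount : ∀ S : Finset (Fin n),
      #((univ : Finset (Fin r → Fin n)).filter (fun ω => ∀ l, ω l ∈ S)) = #S ^ r := by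
    intro S
    have : (univ : Finset (Fin r → Fin n)).filter (fun ω => ∀ l, ω l ∈ S) =
        Fintype.piFinset (fun _ : Fin r => S) := by
      ext ω
      simp
    rw [this, Fintype.card_piFinset_const]
  have hX : ∑ ω, #(X ω) = ∑ k, #(A k) ^ r := by
    have h1 : ∀ ω, #(X ω) = ∑ k, if ∀ l, ω l ∈ A k then 1 else 0 := fun ω => by
      rw [card_filter]
    rw [sum_congr rfl (fun ω _ => h1 ω), sum_comm]
    refine sum_congr rfl (fun k _ => ?_)
    rw [← card_filter, hcount]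
  have hY : ∑ ω, #(Y ω) = ∑ p ∈ Bd, #(A p.1 ∩ A p.2) ^ r := by
    have h1 : ∀ ω, #(Y ω) = ∑ p ∈ Bd, if ∀ l, ω l ∈ A p.1 ∩ A p.2 then 1 else 0 := fun ω => by
      rw [card_filter]
    rw [sum_congr rfl (fun ω _ => h1 ω), sum_comm]
    refine sum_congr rfl (fun p _ => ?_)
    rw [← card_filter, hcount]
  have hn0 : (0 : ℝ) < n := by exact_mod_cast hn
  have hX' : (m : ℝ) * (c * n) ^ r ≤ ∑ ω, (#(X ω) : ℝ) := by
    have h1 : ∑ ω, (#(X ω) : ℝ) = ∑ k, (#(A k) : ℝ) ^ r := by exact_mod_cast hX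
    rw [h1]
    have h2 : (m : ℝ) * (c * n) ^ r = ∑ _k : Fin m, (c * n) ^ r := by
      rw [sum_const, card_univ, Fintype.card_fin, nsmul_eq_mul]
    rw [h2]
    exact sum_le_sum (fun k _ => pow_le_pow_left₀ (by positivity) (hA k).le r)
  have hY' : ∑ ω, (#(Y ω) : ℝ) ≤ (m : ℝ) ^ 2 / 2 * (ε * n) ^ r := by
    have h1 : ∑ ω, (#(Y ω) : ℝ) = ∑ p ∈ Bd, (#(A p.1 ∩ A p.2) : ℝ) ^ r := by exact_mod_cast hY
    rw [h1]
    have h2 : ∑ p ∈ Bd, (#(A p.1 ∩ A p.2) : ℝ) ^ r ≤ ∑ _p ∈ Bd, (ε * n) ^ r := by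
      refine sum_le_sum (fun p hp => ?_)
      rw [hBd, mem_filter] at hp
      exact pow_le_pow_left₀ (by positivity) (not_lt.1 hp.2.2) r
    refine h2.trans ?_
    rw [sum_const, nsmul_eq_mul]
    apply mul_le_mul_of_nonneg_right _ (by positivity)
    have h3 : Bd ⊆ (univ : Finset (Fin m × Fin m)).filter (fun p => p.1 < p.2) := by
      intro p hp
      rw [hBd, mem_filter] at hp
      exact mem_filter.2 ⟨mem_univ _, hp.2.1⟩
    have h4 : 2 * #Bd ≤ m ^ 2 :=
      (Nat.mul_le_mul_left 2 (card_le_card h3)).trans (two_mul_card_lt m)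
    have h5 : (2 : ℝ) * #Bd ≤ (m : ℝ) ^ 2 := by exact_mod_cast h4
    linarith
  obtain ⟨ω, -, hω⟩ : ∃ ω ∈ (univ : Finset (Fin r → Fin n)),
      (m : ℝ) * c ^ r - (m : ℝ) ^ 2 / 2 * ε ^ r ≤ (#(X ω) : ℝ) - #(Y ω) := by
    apply exists_le_of_sum_le
    · exact ⟨fun _ => ⟨0, by omega⟩, mem_univ _⟩
    · rw [sum_const, card_univ, Fintype.card_fun, Fintype.card_fin, Fintype.card_fin,
        nsmul_eq_mul, sum_sub_distrib]
      rw [mul_pow] at hX' hY'
      push_cast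
      have : (n : ℝ) ^ r * ((m : ℝ) * c ^ r - (m : ℝ) ^ 2 / 2 * ε ^ r) =
        (m : ℝ) * (c ^ r * n ^ r) - (m : ℝ) ^ 2 / 2 * (ε ^ r * n ^ r) := by ring
      rw [this]
      linarith
  refine ⟨X ω \ (Y ω).image Prod.fst, ?_, ?_⟩
  · refine hω.trans ?_
    have h1 : #(X ω) ≤ #(X ω \ (Y ω).image Prod.fst) + #((Y ω).image Prod.fst) := by
      have := le_card_sdiff ((Y ω).image Prod.fst) (X ω)
      omega
    have h2 : #((Y ω).image Prod.fst) ≤ #(Y ω) := card_image_le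
    have h3 : (#(X ω) : ℝ) ≤ #(X ω \ (Y ω).image Prod.fst) + #(Y ω) := by
      exact_mod_cast h1.trans (by omega)
    linarith
  · have key : ∀ i ∈ X ω \ (Y ω).image Prod.fst, ∀ j ∈ X ω \ (Y ω).image Prod.fst, i < j →
        ε * n < #(A i ∩ A j) := by
      intro i hi j hj hij
      by_contra hcon
      rw [mem_sdiff] at hi hj
      apply hi.2
      refine mem_image.2 ⟨(i, j), ?_, rfl⟩
      refine mem_filter.2 ⟨mem_filter.2 ⟨mem_univ _, hij, hcon⟩, fun l => ?_⟩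
      exact mem_inter.2 ⟨(mem_filter.1 hi.1).2 l, (mem_filter.1 hj.1).2 l⟩
    intro i hi j hj hij
    rcases lt_or_gt_of_ne hij with h | h
    · exact key i hi j hj h
    · rw [inter_comm]
      exact key j hj i hi h

lemma lower {n m : ℕ} (hn : 1 ≤ n) (hm : 1 ≤ m) (c ε : ℝ) (hc0 : 0 < c) (hc1 : c < 1)
    (hε : 0 < ε) (hεc : ε < c) (A : Fin m → Finset (Fin n)) (hA : ∀ i, c * n < #(A i)) :
    ∃ I : Finset (Fin m),
      c / 2 * (m : ℝ) ^ (1 - Real.log (1 / c) / Real.log (c / ε)) ≤ #I ∧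
      EpsIntersecting ε A I := by
  have hm0 : (0 : ℝ) < m := by exact_mod_cast hm
  have hm1 : (1 : ℝ) ≤ m := by exact_mod_cast hm
  have hL : 0 < Real.log (c / ε) := Real.log_pos (by rw [lt_div_iff₀ hε]; linarith)
  set x := Real.log m / Real.log (c / ε) with hx
  have hx0 : 0 ≤ x := div_nonneg (Real.log_nonneg hm1) hL.le
  set r := ⌈x⌉₊ with hr
  have hr1 : x ≤ r := Nat.le_ceil x
  have hr2 : (r : ℝ) < x + 1 := Nat.ceil_lt_add_one hx0
  obtain ⟨I, hI, hI2⟩ := random_choice hn c ε hc0.le hε.le r A hA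
  refine ⟨I, le_trans ?_ hI, hI2⟩
  -- `m ε ^ r ≤ c ^ r`
  have h1 : (m : ℝ) * ε ^ r ≤ c ^ r := by
    have h2 : Real.log m ≤ r * Real.log (c / ε) := by
      have : x * Real.log (c / ε) = Real.log m := div_mul_cancel₀ _ hL.ne'
      rw [← this]
      exact mul_le_mul_of_nonneg_right hr1 hL.le
    have h3 : (m : ℝ) ≤ (c / ε) ^ r := by
      rw [← Real.log_pow] at h2
      exact (Real.log_le_log_iff hm0 (by positivity)).1 h2
    rw [div_pow, le_div_iff₀ (by positivity)] at h3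
    exact h3
  have h4 : (m : ℝ) / 2 * c ^ r ≤ (m : ℝ) * c ^ r - (m : ℝ) ^ 2 / 2 * ε ^ r := by
    have : (m : ℝ) ^ 2 / 2 * ε ^ r = m / 2 * (m * ε ^ r) := by ring
    rw [this]
    have := mul_le_mul_of_nonneg_left h1 (by positivity : (0 : ℝ) ≤ m / 2)
    linarith
  refine le_trans ?_ h4
  -- `c ^ r ≥ c m ^ (-δ)`
  have hlogc : Real.log c < 0 := Real.log_neg hc0 hc1
  have h5 : c * (m : ℝ) ^ (-(Real.log (1 / c) / Real.log (c / ε))) ≤ c ^ r := by
    have h6 : c ^ r = Real.exp (r * Real.log c) := by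
      rw [mul_comm, Real.exp_mul, Real.exp_log hc0, Real.rpow_natCast]
    have h7 : c * (m : ℝ) ^ (-(Real.log (1 / c) / Real.log (c / ε))) =
        Real.exp ((x + 1) * Real.log c) := by
      rw [Real.rpow_def_of_pos hm0, add_mul, one_mul, Real.exp_add, Real.exp_log hc0, mul_comm,
        one_div, Real.log_inv]
      congr 2
      rw [hx]
      ring
    rw [h6, h7, Real.exp_le_exp]
    exact mul_le_mul_of_nonpos_right hr2.le hlogc.le
  rw [sub_eq_add_neg, Real.rpow_add hm0, Real.rpow_one]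
  calc c / 2 * ((m : ℝ) * (m : ℝ) ^ (-(Real.log (1 / c) / Real.log (c / ε))))
      = m / 2 * (c * (m : ℝ) ^ (-(Real.log (1 / c) / Real.log (c / ε)))) := by ring
    _ ≤ m / 2 * c ^ r := mul_le_mul_of_nonneg_left h5 (by positivity)

/-! ### The upper bound: subsets of more than half of `D` blocks -/

/-- families of subsets of `[D]` with pairwise intersections of size at least `ε D / 2` -/
lemma tint (D : ℕ) (ε : ℝ) (hε : 0 < ε) (hε1 : ε ≤ 1) (T : Finset (Finset (Fin D)))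
    (hT : ∀ x ∈ T, ∀ y ∈ T, ε * D / 2 ≤ #(x ∩ y)) :
    (#T : ℝ) ≤ 2 ^ D * Real.exp (-(ε ^ 2 * D / 32)) := by
  set h := ε / 2 with hh
  set t := ⌈ε * D / 2⌉₊ with ht
  have hq : (1 : ℝ) ≤ 1 + h := by rw [hh]; linarith
  have h1 := Pool.Agent.R101.Dist.main (1 + h) hq (univ : Finset (Fin D)) t T
    (T.image (fun x => xᶜ)) (fun _ _ => subset_univ _) (fun _ _ => subset_univ _) (by
      intro a ha b hb
      obtain ⟨y, hy, rfl⟩ := mem_image.1 hb
      refine (Nat.ceil_le.2 (hT a ha y hy)).trans (card_le_card ?_)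
      intro i hi
      rw [mem_inter] at hi
      exact mem_symmDiff.2 (Or.inl ⟨hi.1, fun h => (mem_compl.1 h) hi.2⟩))
  rw [card_image_of_injective _ compl_injective, card_univ, Fintype.card_fin] at h1
  -- `(1 + q) ^ 2 / q ≤ 4 exp (h ^ 2 / 4)`
  have h2 : (1 + (1 + h)) ^ 2 / (1 + h) ≤ 4 * Real.exp (h ^ 2 / 4) := by
    have h3 : (1 + (1 + h)) ^ 2 / (1 + h) ≤ 4 * (h ^ 2 / 4 + 1) := by
      rw [div_le_iff₀ (by linarith)]
      have : 0 ≤ h := by rw [hh]; positivity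
      nlinarith [pow_nonneg this 3]
    have h4 := Real.add_one_le_exp (h ^ 2 / 4)
    linarith
  have h5 : ((1 + (1 + h)) ^ 2 / (1 + h)) ^ D ≤ (4 * Real.exp (h ^ 2 / 4)) ^ D :=
    pow_le_pow_left₀ (by positivity) h2 D
  -- `(1 + h) ^ t ≥ exp (t h / 2)`
  have hh0 : 0 < h := by rw [hh]; positivity
  have h6 : Real.exp (h / 2) ≤ 1 + h := by
    have h7 := Real.one_sub_inv_le_log_of_pos (by linarith : (0 : ℝ) < 1 + h)
    have h8 : h / 2 ≤ 1 - (1 + h)⁻¹ := by
      have : 1 - (1 + h)⁻¹ = h / (1 + h) := by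
        field_simp
        ring
      rw [this, div_le_div_iff_of_pos_left hh0 (by norm_num) (by linarith)]
      rw [hh]; linarith
    calc Real.exp (h / 2) ≤ Real.exp (Real.log (1 + h)) := Real.exp_le_exp.2 (h8.trans h7)
      _ = 1 + h := Real.exp_log (by linarith)
  have h9 : Real.exp (ε ^ 2 * D / 8) ≤ (1 + h) ^ t := by
    have h10 : Real.exp (t * (h / 2)) ≤ (1 + h) ^ t := by
      rw [mul_comm, Real.exp_mul, Real.rpow_natCast]
      exact pow_le_pow_left₀ (Real.exp_pos _).le h6 t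
    refine le_trans (Real.exp_le_exp.2 ?_) h10
    have h11 : ε * D / 2 ≤ t := Nat.le_ceil _
    calc ε ^ 2 * D / 8 = ε * D / 2 * (h / 2) := by rw [hh]; ring
      _ ≤ t * (h / 2) := mul_le_mul_of_nonneg_right h11 (by positivity)
  have h12 : (#T : ℝ) * #T * Real.exp (ε ^ 2 * D / 8) ≤ (4 * Real.exp (h ^ 2 / 4)) ^ D :=
    (mul_le_mul_of_nonneg_left h9 (by positivity)).trans (h1.trans h5)
  have h13 : (4 * Real.exp (h ^ 2 / 4)) ^ D = (2 ^ D) ^ 2 * Real.exp (ε ^ 2 * D / 16) := by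
    rw [mul_pow, ← Real.exp_nat_mul, ← pow_mul, mul_comm D 2, pow_mul]
    norm_num
    rw [hh]
    ring
  rw [h13] at h12
  have h14 : (#T : ℝ) ^ 2 ≤ (2 ^ D * Real.exp (-(ε ^ 2 * D / 32))) ^ 2 := by
    have h15 : (2 ^ D * Real.exp (-(ε ^ 2 * D / 32))) ^ 2 * Real.exp (ε ^ 2 * D / 8) =
        (2 ^ D) ^ 2 * Real.exp (ε ^ 2 * D / 16) := by
      rw [mul_pow, ← Real.exp_nat_mul, mul_assoc, ← Real.exp_add]
      congr 2
      push_cast
      ring
    rw [← h15, ← sq] at h12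
    exact le_of_mul_le_mul_right h12 (Real.exp_pos _)
  exact le_of_sq_le_sq h14 (by positivity)

/-- the blow-up of `x ⊆ [D]` to a subset of `[n]` -/
def blow (n D : ℕ) (hD : 0 < D) (x : Finset (Fin D)) : Finset (Fin n) :=
  univ.filter (fun i => (⟨(i : ℕ) % D, Nat.mod_lt _ hD⟩ : Fin D) ∈ x)

lemma blow_inter (n D : ℕ) (hD : 0 < D) (x y : Finset (Fin D)) :
    blow n D hD x ∩ blow n D hD y = blow n D hD (x ∩ y) := by
  ext i
  simp [blow]

lemma card_blow_le (n D : ℕ) (hD : 0 < D) (x : Finset (Fin D)) :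
    #(blow n D hD x) ≤ #x * (n / D + 1) := by
  have h := card_le_card_of_injOn (s := blow n D hD x) (t := x ×ˢ range (n / D + 1))
    (fun i => ((⟨(i : ℕ) % D, Nat.mod_lt _ hD⟩ : Fin D), (i : ℕ) / D)) (by
      intro i hi
      have hi' := (mem_filter.1 (mem_coe.1 hi)).2
      refine mem_coe.2 (mem_product.2 ⟨hi', mem_range.2 ?_⟩)
      have : (i : ℕ) / D ≤ n / D := Nat.div_le_div_right i.isLt.le
      show (i : ℕ) / D < n / D + 1
      omega) (by
      intro i _ j _ hij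
      have h1 := congrArg Prod.fst hij
      have h2 := congrArg Prod.snd hij
      simp only [Fin.mk.injEq] at h1 h2
      apply Fin.ext
      rw [← Nat.mod_add_div (i : ℕ) D, ← Nat.mod_add_div (j : ℕ) D, h1, h2])
  rwa [card_product, card_range] at h

lemma le_card_blow (n D : ℕ) (hD : 0 < D) (x : Finset (Fin D)) :
    #x * (n / D) ≤ #(blow n D hD x) := by
  have key : ∀ p ∈ x ×ˢ range (n / D), (p.1 : ℕ) + D * p.2 < n := by
    intro p hp
    rw [mem_product, mem_range] at hp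
    have h1 : D * (p.2 + 1) ≤ D * (n / D) := Nat.mul_le_mul_left D hp.2
    have h2 := Nat.mul_div_le n D
    have h3 := p.1.isLt
    rw [Nat.mul_add] at h1
    omega
  have h := card_le_card_of_injOn (s := x ×ˢ range (n / D)) (t := (blow n D hD x).map
    Fin.valEmbedding)
    (fun p => (p.1 : ℕ) + D * p.2) (by
      intro p hp
      have hp' := mem_coe.1 hp
      refine mem_coe.2 (mem_map.2 ⟨⟨_, key p hp'⟩, ?_, rfl⟩)
      refine mem_filter.2 ⟨mem_univ _, ?_⟩
      rw [mem_product] at hp'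
      have : (⟨((p.1 : ℕ) + D * p.2) % D, Nat.mod_lt _ hD⟩ : Fin D) = p.1 := by
        apply Fin.ext
        show ((p.1 : ℕ) + D * p.2) % D = p.1
        rw [Nat.add_mul_mod_self_left, Nat.mod_eq_of_lt p.1.isLt]
      rw [this]
      exact hp'.1) (by
      intro p _ q _ hpq
      have hpq' : (p.1 : ℕ) + D * p.2 = (q.1 : ℕ) + D * q.2 := hpq
      have h1 : (p.1 : ℕ) = q.1 := by
        have := congrArg (· % D) hpq'
        simpa [Nat.add_mul_mod_self_left, Nat.mod_eq_of_lt p.1.isLt,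
          Nat.mod_eq_of_lt q.1.isLt] using this
      have h2 : p.2 = q.2 := by
        rw [h1] at hpq'
        exact Nat.eq_of_mul_eq_mul_left hD (by omega)
      exact Prod.ext (Fin.ext h1) h2)
  rwa [card_product, card_range, card_map] at h

/-- at least half of the subsets of `[2 h + 1]` have more than `h` elements -/
lemma card_large (h : ℕ) :
    2 ^ (2 * h) ≤ #((univ : Finset (Finset (Fin (2 * h + 1)))).filter (fun x => h + 1 ≤ #x)) := by
  set X := (univ : Finset (Finset (Fin (2 * h + 1)))).filter (fun x => h + 1 ≤ #x) with hX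
  have h1 : (univ : Finset (Finset (Fin (2 * h + 1)))) ⊆ X ∪ X.image (fun x => xᶜ) := by
    intro x _
    by_cases hx : h + 1 ≤ #x
    · exact mem_union_left _ (mem_filter.2 ⟨mem_univ _, hx⟩)
    · refine mem_union_right _ (mem_image.2 ⟨xᶜ, mem_filter.2 ⟨mem_univ _, ?_⟩, compl_compl x⟩)
      rw [card_compl, Fintype.card_fin]
      omega
  have h2 := (card_le_card h1).trans (card_union_le _ _)
  have h3 : #(X.image (fun x => xᶜ)) ≤ #X := card_image_le
  rw [card_univ, Fintype.card_finset, Fintype.card_fin, pow_succ] at h2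
  omega

/-- the sequence of sets -/
lemma upper_aux (n m h : ℕ) (hm2 : m < 4 * 2 ^ (2 * h))
    (hn : (2 * h + 1) ^ 2 ≤ n) (c ε : ℝ) (hc : c ≤ 1 / 2) (hε : 0 < ε) (hε1 : ε ≤ 1) :
    ∃ A : Fin m → Finset (Fin n), (∀ i, c * n < #(A i)) ∧
      ∀ I : Finset (Fin m), EpsIntersecting ε A I →
        (#I : ℝ) ≤ 4 * (2 ^ (2 * h + 1) * Real.exp (-(ε ^ 2 * (2 * h + 1 : ℕ) / 32))) := by
  classical
  set D := 2 * h + 1 with hD
  have hD0 : 0 < D := by omega
  set X := (univ : Finset (Finset (Fin D))).filter (fun x => h + 1 ≤ #x) with hX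
  have hXc : 2 ^ (2 * h) ≤ #X := card_large h
  obtain ⟨X', hX', hX'c⟩ := exists_subset_card_eq hXc
  let e : Fin (2 ^ (2 * h)) ≃ X' := (Fintype.equivFinOfCardEq (by simp [hX'c])).symm
  have hM : 0 < 2 ^ (2 * h) := by positivity
  let ty : Fin m → Finset (Fin D) := fun k => (e ⟨(k : ℕ) % 2 ^ (2 * h), Nat.mod_lt _ hM⟩ : _)
  have hty : ∀ k, h + 1 ≤ #(ty k) := fun k =>
    (mem_filter.1 (hX' (e ⟨(k : ℕ) % 2 ^ (2 * h), Nat.mod_lt _ hM⟩).2)).2
  have hnD : D ≤ n / D := by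
    rw [Nat.le_div_iff_mul_le hD0, ← sq]
    exact hn
  have hn0 : (0 : ℝ) < n := by
    have : 0 < n := by nlinarith
    exact_mod_cast this
  refine ⟨fun k => blow n D hD0 (ty k), ?_, ?_⟩
  · intro k
    have h1 : (h + 1) * (n / D) ≤ #(blow n D hD0 (ty k)) :=
      (Nat.mul_le_mul_right _ (hty k)).trans (le_card_blow n D hD0 (ty k))
    have h2 : n < 2 * ((h + 1) * (n / D)) := by
      have h3 := Nat.div_add_mod n D
      have h4 := Nat.mod_lt n hD0
      have h5 : 2 * ((h + 1) * (n / D)) = D * (n / D) + n / D := by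
        rw [hD]; ring
      omega
    have h6 : (n : ℝ) < 2 * #(blow n D hD0 (ty k)) := by
      have : n < 2 * #(blow n D hD0 (ty k)) := by omega
      exact_mod_cast this
    have h7 : c * n ≤ 1 / 2 * n := mul_le_mul_of_nonneg_right hc hn0.le
    linarith
  · intro I hI
    set T := I.image ty with hT
    have hTc : (#T : ℝ) ≤ 2 ^ D * Real.exp (-(ε ^ 2 * D / 32)) := by
      apply tint D ε hε hε1
      intro x hx y hy
      obtain ⟨i, hi, rfl⟩ := mem_image.1 hx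
      obtain ⟨j, hj, rfl⟩ := mem_image.1 hy
      by_cases hij : ty i = ty j
      · rw [hij, inter_self]
        have h1 : ((h + 1 : ℕ) : ℝ) ≤ #(ty j) := by exact_mod_cast hty j
        have h2 : ((D : ℕ) : ℝ) = 2 * h + 1 := by rw [hD]; push_cast; ring
        push_cast at h1
        have h3 : ε * D ≤ 1 * D := mul_le_mul_of_nonneg_right hε1 (by positivity)
        rw [h2] at h3 ⊢
        linarith
      · have hne : i ≠ j := fun h => hij (by rw [h])
        have h1 := hI i hi j hj hne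
        rw [blow_inter] at h1
        have h2 : (#(blow n D hD0 (ty i ∩ ty j)) : ℝ) ≤ #(ty i ∩ ty j) * ((n / D : ℕ) + 1) := by
          exact_mod_cast card_blow_le n D hD0 (ty i ∩ ty j)
        have hDpos : (0 : ℝ) < D := by exact_mod_cast hD0
        have h3 : ((n / D : ℕ) : ℝ) + 1 ≤ 2 * n / D := by
          have h4 : ((n / D : ℕ) : ℝ) ≤ n / D := Nat.cast_div_le
          have h5 : (1 : ℝ) ≤ n / D := by
            rw [le_div_iff₀ hDpos, one_mul]
            have : D ≤ n := hnD.trans (Nat.div_le_self n D)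
            exact_mod_cast this
          calc ((n / D : ℕ) : ℝ) + 1 ≤ n / D + n / D := add_le_add h4 h5
            _ = 2 * n / D := by ring
        have h6 : ε * n < #(ty i ∩ ty j) * (2 * n / D) :=
          h1.trans_le (h2.trans (mul_le_mul_of_nonneg_left h3 (by positivity)))
        have h7 : ε * n * D < #(ty i ∩ ty j) * (2 * n) := by
          have : (#(ty i ∩ ty j) : ℝ) * (2 * n / D) = #(ty i ∩ ty j) * (2 * n) / D := by ring
          rw [this, lt_div_iff₀ hDpos] at h6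
          exact h6
        have h8 : n * (ε * D) < n * (2 * (#(ty i ∩ ty j) : ℝ)) := by linarith
        have h9 := lt_of_mul_lt_mul_left h8 hn0.le
        linarith
    have hfib : #I ≤ 4 * #T := by
      apply card_le_mul_card_image
      intro x _
      have h1 := card_le_card_of_injOn (s := I.filter (fun k => ty k = x)) (t := range 4)
        (fun k => (k : ℕ) / 2 ^ (2 * h)) (by
          intro k _
          refine mem_coe.2 (mem_range.2 ?_)
          show (k : ℕ) / 2 ^ (2 * h) < 4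
          rw [Nat.div_lt_iff_lt_mul hM]
          have := k.isLt
          omega) (by
          intro k hk l hl hkl
          have hk' := (mem_filter.1 (mem_coe.1 hk)).2
          have hl' := (mem_filter.1 (mem_coe.1 hl)).2
          have h2 : ty k = ty l := hk'.trans hl'.symm
          have h3 : (⟨(k : ℕ) % 2 ^ (2 * h), Nat.mod_lt _ hM⟩ : Fin (2 ^ (2 * h))) =
              ⟨(l : ℕ) % 2 ^ (2 * h), Nat.mod_lt _ hM⟩ := e.injective (Subtype.ext h2)
          have h4 := congrArg Fin.val h3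
          simp only at h4
          have h5 : (k : ℕ) / 2 ^ (2 * h) = (l : ℕ) / 2 ^ (2 * h) := hkl
          apply Fin.ext
          rw [← Nat.mod_add_div (k : ℕ) (2 ^ (2 * h)), ← Nat.mod_add_div (l : ℕ) (2 ^ (2 * h)),
            h4, h5])
      rwa [card_range] at h1
    calc (#I : ℝ) ≤ 4 * #T := by exact_mod_cast hfib
      _ ≤ _ := mul_le_mul_of_nonneg_left hTc (by norm_num)

/-- `(2 h + 1) ^ 2 ≤ 4 ^ h` for `h ≥ 3` -/
lemma sq_le_pow (h : ℕ) (hh : 3 ≤ h) : (2 * h + 1) ^ 2 ≤ 2 ^ (2 * h) := by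
  induction h, hh using Nat.le_induction with
  | base => norm_num
  | succ k hk ih =>
    have h1 : 2 ^ (2 * (k + 1)) = 4 * 2 ^ (2 * k) := by
      rw [Nat.mul_add, pow_add]
      ring
    rw [h1]
    nlinarith

lemma upper (c ε : ℝ) (hc : c ≤ 1 / 2) (hε : 0 < ε) (hε1 : ε ≤ 1) :
    ∃ κ : ℝ, 0 < κ ∧ ∃ m₀ : ℕ, ∀ m : ℕ, m₀ ≤ m → ∀ n : ℕ, m ≤ n →
      ∃ A : Fin m → Finset (Fin n), (∀ i, c * n < #(A i)) ∧
      ∀ I : Finset (Fin m), EpsIntersecting ε A I → (#I : ℝ) ≤ (m : ℝ) ^ (1 - κ) := by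
  refine ⟨ε ^ 2 / 128, by positivity, max 64 ⌈(8 : ℝ) ^ (128 / ε ^ 2)⌉₊, ?_⟩
  intro m hm n hmn
  have hm64 : 64 ≤ m := (le_max_left _ _).trans hm
  have hm8 : (8 : ℝ) ^ (128 / ε ^ 2) ≤ m := Nat.ceil_le.1 ((le_max_right _ _).trans hm)
  have hm0 : m ≠ 0 := by omega
  have hmpos : (0 : ℝ) < m := by exact_mod_cast Nat.pos_of_ne_zero hm0
  set L := Nat.log 2 m with hL
  have hL1 : 2 ^ L ≤ m := Nat.pow_log_le_self 2 hm0
  have hL2 : m < 2 ^ (L + 1) := Nat.lt_pow_succ_log_self (by norm_num) m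
  set h := L / 2 with hh
  have h1 : 2 ^ (2 * h) ≤ m := (Nat.pow_le_pow_right (by norm_num) (by omega)).trans hL1
  have h2 : m < 4 * 2 ^ (2 * h) := by
    have h3 : 2 ^ (L + 1) ≤ 2 ^ (2 * h + 2) := Nat.pow_le_pow_right (by norm_num) (by omega)
    have h4 : 2 ^ (2 * h + 2) = 4 * 2 ^ (2 * h) := by rw [pow_add]; ring
    omega
  have hL6 : 6 ≤ L := by
    by_contra hcon
    have : 2 ^ (L + 1) ≤ 2 ^ 6 := Nat.pow_le_pow_right (by norm_num) (by omega)
    omega
  have h3 : (2 * h + 1) ^ 2 ≤ n := (sq_le_pow h (by omega)).trans (h1.trans hmn)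
  obtain ⟨A, hA1, hA2⟩ := upper_aux n m h h2 h3 c ε hc hε hε1
  refine ⟨A, hA1, fun I hI => (hA2 I hI).trans ?_⟩
  have h4 : (4 : ℝ) * (2 ^ (2 * h + 1) * Real.exp (-(ε ^ 2 * (2 * h + 1 : ℕ) / 32))) ≤
      8 * (m * Real.exp (-(ε ^ 2 * (2 * h + 1 : ℕ) / 32))) := by
    have h5 : (2 : ℝ) ^ (2 * h) ≤ m := by exact_mod_cast h1
    have h6 := mul_le_mul_of_nonneg_right h5
      (Real.exp_pos (-(ε ^ 2 * (2 * h + 1 : ℕ) / 32))).le
    rw [pow_succ]
    linarith
  refine h4.trans ?_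
  -- `2 h + 1 ≥ log m / 2`
  have h5 : Real.log m ≤ 2 * (2 * h + 1 : ℕ) := by
    have h6 : Real.log m ≤ Real.log (4 * 2 ^ (2 * h)) :=
      Real.log_le_log hmpos (by exact_mod_cast h2.le)
    have h7 : (4 : ℝ) * 2 ^ (2 * h) = 2 ^ (2 * h + 2) := by rw [pow_add]; ring
    rw [h7, Real.log_pow] at h6
    have h8 : Real.log 2 ≤ 1 := by
      have := Real.log_two_lt_d9
      linarith
    have h9 : ((2 * h + 2 : ℕ) : ℝ) * Real.log 2 ≤ ((2 * h + 2 : ℕ) : ℝ) * 1 :=
      mul_le_mul_of_nonneg_left h8 (by positivity)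
    have h10 : ((2 * h + 2 : ℕ) : ℝ) ≤ 2 * (2 * h + 1 : ℕ) := by
      exact_mod_cast (by omega : 2 * h + 2 ≤ 2 * (2 * h + 1))
    linarith
  have h6 : Real.exp (-(ε ^ 2 * (2 * h + 1 : ℕ) / 32)) ≤ (m : ℝ) ^ (-(ε ^ 2 / 64)) := by
    rw [Real.rpow_def_of_pos hmpos, Real.exp_le_exp]
    have := mul_le_mul_of_nonneg_left h5 (by positivity : 0 ≤ ε ^ 2 / 64)
    linarith
  have h7 : (8 : ℝ) ≤ (m : ℝ) ^ (ε ^ 2 / 128) := by
    have h8 : ((8 : ℝ) ^ (128 / ε ^ 2)) ^ (ε ^ 2 / 128) = 8 := by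
      rw [← Real.rpow_mul (by norm_num)]
      have : 128 / ε ^ 2 * (ε ^ 2 / 128) = 1 := by field_simp
      rw [this, Real.rpow_one]
    calc (8 : ℝ) = ((8 : ℝ) ^ (128 / ε ^ 2)) ^ (ε ^ 2 / 128) := h8.symm
      _ ≤ _ := Real.rpow_le_rpow (by positivity) hm8 (by positivity)
  have h8 : (m : ℝ) ^ (1 - ε ^ 2 / 128) =
      (m : ℝ) ^ (ε ^ 2 / 128) * (m * (m : ℝ) ^ (-(ε ^ 2 / 64))) := by
    rw [← Real.rpow_one_add' hmpos.le (by
        have : ε ^ 2 ≤ 1 := by nlinarith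
        intro hcon
        linarith), ← Real.rpow_add hmpos]
    congr 1
    ring
  rw [h8]
  exact mul_le_mul h7 (mul_le_mul_of_nonneg_left h6 hmpos.le) (by positivity) (by positivity)

/-- For all `0 < ε < c ≤ 1/2`, with `δ = log (1 / c) / log (c / ε)` (which tends to `0` as `ε → 0`):
`f(n,m,c,ε) ≥ (c / 2) m ^ (1 - δ)` for all `n, m ≥ 1`; in particular
`f(n,n,c,ε) ≥ (c / 2) n ^ (1 / 2)` for all `n ≥ 1` if `ε ≤ c ^ 3`; and there is `κ > 0` with
`f(n,m,c,ε) ≤ m ^ (1 - κ)` for all large `m` and all `n ≥ m`. -/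
theorem result (c ε : ℝ) (hc : c ≤ 1 / 2) (hε : 0 < ε) (hεc : ε < c) :
    (∀ n m : ℕ, 1 ≤ n → 1 ≤ m →
      c / 2 * (m : ℝ) ^ (1 - Real.log (1 / c) / Real.log (c / ε)) ≤ f n m c ε) ∧
    (ε ≤ c ^ 3 → ∀ n : ℕ, 1 ≤ n → c / 2 * (n : ℝ) ^ (1 / 2 : ℝ) ≤ f n n c ε) ∧
    (∃ κ : ℝ, 0 < κ ∧ ∃ m₀ : ℕ, ∀ m : ℕ, m₀ ≤ m → ∀ n : ℕ, m ≤ n →
      (f n m c ε : ℝ) ≤ (m : ℝ) ^ (1 - κ)) := by
  have hc0 : 0 < c := hε.trans hεc
  have hbdd : ∀ n m : ℕ, 1 ≤ n → ∀ k ∈ {k : ℕ | ∀ A : Fin m → Finset (Fin n),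
      (∀ i, c * n < #(A i)) → ∃ I : Finset (Fin m), #I = k ∧ EpsIntersecting ε A I}, k ≤ m := by
    intro n m hn k hk
    have hn0 : (0 : ℝ) < n := by exact_mod_cast hn
    obtain ⟨I, hI, -⟩ := hk (fun _ => univ) (fun _ => by
      rw [card_univ, Fintype.card_fin]
      have : c * n ≤ 1 / 2 * n := mul_le_mul_of_nonneg_right hc hn0.le
      linarith)
    rw [← hI]
    simpa using card_le_univ I
  have low : ∀ n m : ℕ, 1 ≤ n → 1 ≤ m →
      c / 2 * (m : ℝ) ^ (1 - Real.log (1 / c) / Real.log (c / ε)) ≤ f n m c ε := by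
    intro n m hn hm
    refine (Nat.le_ceil _).trans ?_
    have : ⌈c / 2 * (m : ℝ) ^ (1 - Real.log (1 / c) / Real.log (c / ε))⌉₊ ≤ f n m c ε := by
      apply le_csSup ⟨m, fun k hk => hbdd n m hn k hk⟩
      intro A hA
      obtain ⟨I, hI1, hI2⟩ := lower hn hm c ε hc0 (by linarith) hε hεc A hA
      obtain ⟨J, hJ1, hJ2⟩ := exists_subset_card_eq (Nat.ceil_le.2 hI1)
      exact ⟨J, hJ2, fun i hi j hj hij => hI2 i (hJ1 hi) j (hJ1 hj) hij⟩
    exact_mod_cast this
  refine ⟨low, ?_, ?_⟩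
  · intro h3 n hn
    refine le_trans ?_ (low n n hn hn)
    apply mul_le_mul_of_nonneg_left _ (by positivity)
    apply Real.rpow_le_rpow_of_exponent_le (by exact_mod_cast hn)
    have hL : 0 < Real.log (c / ε) := Real.log_pos (by rw [lt_div_iff₀ hε]; linarith)
    have h4 : Real.log (1 / c) / Real.log (c / ε) ≤ 1 / 2 := by
      rw [div_le_iff₀ hL, one_div, Real.log_inv, Real.log_div hc0.ne' hε.ne']
      have h5 : Real.log ε ≤ 3 * Real.log c := by
        have h6 := Real.log_le_log hε h3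
        rw [Real.log_pow] at h6
        exact_mod_cast h6
      linarith
    linarith
  · obtain ⟨κ, hκ, m₀, hm₀⟩ := upper c ε hc hε (by linarith)
    refine ⟨κ, hκ, max m₀ 1, fun m hm n hmn => ?_⟩
    obtain ⟨A, hA1, hA2⟩ := hm₀ m ((le_max_left _ _).trans hm) n hmn
    have hm1 : 1 ≤ m := (le_max_right _ _).trans hm
    have hmem : f n m c ε ∈ {k : ℕ | ∀ A : Fin m → Finset (Fin n),
        (∀ i, c * n < #(A i)) → ∃ I : Finset (Fin m), #I = k ∧ EpsIntersecting ε A I} := by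
      apply Nat.sSup_mem
      · exact ⟨0, fun A _ => ⟨∅, rfl, fun i hi => absurd hi (notMem_empty i)⟩⟩
      · exact ⟨m, fun k hk => hbdd n m (by omega) k hk⟩
    obtain ⟨I, hI1, hI2⟩ := hmem A hA1
    rw [← hI1]
    exact hA2 I hI2

end Pool.Agent.Results.MP_cecf76_co.PowerLaw
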